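import Pool.Agent.Helper76.TC.Goals

/-!
# Project TC (MP_ccd65d_gt), packet AL: the alternative
-/

set_option autoImplicit false

open Set Topology

namespace Pool.Agent.Helper46.TC.AL

open Pool.Agent.Helper76.TC
open Pool.Agent.Helper50.CT (rv Cov Sh)

theorem t (hLP : S_LP) (hT4 : S_T4) (hGR : S_GR) (hGE : S_GE) : S_AL := by
  intro n A e D X T _ _ _ _ π p q hS y
  have hA := hS.A1
  have he := hS.epos
  have hpos : 0 < 5 * A * e := by positivity
  have hcov := hS.cov
  haveI : LocallyPathConnectedSpace X := (hLP A X hS.turn).1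
  set L : Set X := lv π p fun s => s < dist (π p) (π y) + 5 * A * e with hL
  set R : Set X := lv π p fun s => dist (π p) (π y) - 5 * A * e < s with hR
  have hc : Continuous (fun v : X => dist (π p) (π v)) := by
    refine (LipschitzWith.of_le_add (f := fun v : X => dist (π p) (π v)) fun x z => ?_).continuous
    have h1 := dist_triangle (π p) (π z) (π x)
    have h2 := hcov.le z x 0
    rw [zero_vadd] at h2
    rw [dist_comm x z]
    linarith
  have hLo : IsOpen L := isOpen_lt hc continuous_const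
  have hRo : IsOpen R := isOpen_lt continuous_const hc
  have hLR : L ∪ R = univ := by
    refine eq_univ_of_forall fun x => ?_
    rcases lt_or_ge (dist (π p) (π x)) (dist (π p) (π y) + 5 * A * e) with h | h
    · exact Or.inl h
    · refine Or.inr ?_
      show dist (π p) (π y) - 5 * A * e < dist (π p) (π x)
      linarith
  obtain ⟨hLt, hLg⟩ := hGR n X T π hcov p fun s => s < dist (π p) (π y) + 5 * A * e
  obtain ⟨hRt, hRg⟩ := hGR n X T π hcov p fun s => dist (π p) (π y) - 5 * A * e < s
  obtain ⟨B1, hB1⟩ := hLg y (by linarith)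
  obtain ⟨B2, hB2⟩ := hRg y (by linarith)
  have key : ∀ k ∈ B1, ∀ k' ∈ B2, k ∈ B2 ∨ k' ∈ B1 := by
    intro k hk k' hk'
    have j1 : JoinedIn L y (k +ᵥ y) := (hB1 k).1 hk
    have j2 : JoinedIn R y (k' +ᵥ y) := (hB2 k').1 hk'
    have j3 : JoinedIn R (k +ᵥ y) ((k + k') +ᵥ y) := by
      rw [add_vadd]
      exact hRt _ _ k j2
    have j4 : JoinedIn L ((k + k') +ᵥ y) (k' +ᵥ y) := by
      rw [add_comm, add_vadd]
      exact hLt _ _ k' j1.symm
    rcases hT4 X L R hLo hRo hLR y (k +ᵥ y) ((k + k') +ᵥ y) (k' +ᵥ y) j1 j3 j4 j2.symm with h | h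
    · exact Or.inl ((hB2 k).2 (h.mono inter_subset_right))
    · exact Or.inr ((hB1 k').2 (h.mono inter_subset_left))
  have hle : B1 ≤ B2 ∨ B2 ≤ B1 := by
    by_contra hcon
    rw [not_or] at hcon
    obtain ⟨k, hk, hk2⟩ := SetLike.not_le_iff_exists.1 hcon.1
    obtain ⟨k', hk', hk1⟩ := SetLike.not_le_iff_exists.1 hcon.2
    rcases key k hk k' hk' with h | h
    · exact hk2 h
    · exact hk1 h
  have hgen := hGE n A e D X T π p q hS y
  rcases hle with h | h
  · right
    intro k
    refine (hB2 k).1 ((AddSubgroup.closure_le B2).2 ?_ (hgen k))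
    rintro k' (hk' | hk')
    · exact h ((hB1 k').2 hk')
    · exact (hB2 k').2 hk'
  · left
    intro k
    refine (hB1 k).1 ((AddSubgroup.closure_le B1).2 ?_ (hgen k))
    rintro k' (hk' | hk')
    · exact (hB1 k').2 hk'
    · exact h ((hB2 k').2 hk')

end Pool.Agent.Helper46.TC.AL
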